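import Pool.Agent.Helper17.K9.K9D
import Pool.Agent.Helper17.CT.KPT5

/-!
Row K9 of MP_c75db0 (plan W), matrix side, part A: packed vectors and matrices, laws of the
products.
-/

set_option autoImplicit false
set_option exponentiation.threshold 60000
noncomputable section
namespace Pool.Agent.Helper17.K9

open Pool.Agent.Helper86.C75 (Z)
open Pool.Agent.Helper86.CX (Cx andB)
open Pool.Agent.Helper86.CT (N3 Bil nxB bi un fa fc fb Mo)
open Pool.Agent.Helper90.C75 (Vt)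
open Pool.Agent.Helper90.KMO (zv zv_add zv_sub zv_mul zv_p zv_m)
open Pool.Agent.Helper17.KPT
open Finset

/-! ### signed numbers -/

theorem zv_sh (k : ℕ) (x : Z) : zv (sh k x) = 2 ^ k * zv x := by
  cases x with
  | p n =>
    show ((n <<< k : ℕ) : ℤ) = 2 ^ k * (n : ℤ)
    rw [Nat.shiftLeft_eq]
    push_cast
    ring
  | m n =>
    show -((n <<< k : ℕ) : ℤ) = 2 ^ k * (-(n : ℤ))
    rw [Nat.shiftLeft_eq]
    push_cast
    ring

/-- the base -/
def BB : ℤ := 2 ^ 192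

theorem BB_eq : BB = 2 ^ 192 := rfl

theorem two_BB (k : ℕ) : (2 : ℤ) ^ (192 * k) = BB ^ k := by rw [BB_eq, pow_mul]

theorem two_192 : (2 : ℤ) ^ 192 = BB := rfl
theorem two_576 : (2 : ℤ) ^ 576 = BB ^ 3 := two_BB 3
theorem two_5760 : (2 : ℤ) ^ 5760 = BB ^ 30 := two_BB 30

/-! ### digit spaces -/

/-- complex integers: real and imaginary parts -/
abbrev VA : Type := ℕ → Fin 2 → ℤ
/-- products -/
abbrev VC : Type := ℕ → ℕ → Fin 3 → ℤ

/-- conjugate entries in the slots `30 K` -/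
def PA (I : VA) : ℤ := ∑ K ∈ range 9, (I K 0 - I K 1 * BB) * (BB ^ 30) ^ K
/-- entries in the slots `3 K` -/
def QA (I : VA) : ℤ := ∑ K ∈ range 9, (I K 0 + I K 1 * BB) * (BB ^ 3) ^ K
/-- a matrix -/
def PC (N : VC) : ℤ := ∑ K ∈ range 9, ∑ L ∈ range 9,
  (N K L 0 + N K L 1 * BB + N K L 2 * BB ^ 2) * ((BB ^ 30) ^ K * (BB ^ 3) ^ L)

/-- product -/
def mw (I J : VA) : VC := fun K L =>
  ![I K 0 * J L 0 + J K 0 * I L 0,
    I K 0 * J L 1 - I K 1 * J L 0 + (J K 0 * I L 1 - J K 1 * I L 0),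
    -(I K 1 * J L 1) - J K 1 * I L 1]

theorem PA_sub (I J : VA) : PA (I - J) = PA I - PA J := by
  unfold PA
  rw [← sum_sub_distrib]
  refine sum_congr rfl fun K _ => ?_
  show ((I K 0 - J K 0) - (I K 1 - J K 1) * BB) * (BB ^ 30) ^ K = _
  ring

theorem QA_sub (I J : VA) : QA (I - J) = QA I - QA J := by
  unfold QA
  rw [← sum_sub_distrib]
  refine sum_congr rfl fun K _ => ?_
  show ((I K 0 - J K 0) + (I K 1 - J K 1) * BB) * (BB ^ 3) ^ K = _
  ring

theorem PC_sub (M N : VC) : PC (M - N) = PC M - PC N := by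
  unfold PC
  rw [← sum_sub_distrib]
  refine sum_congr rfl fun K _ => ?_
  rw [← sum_sub_distrib]
  refine sum_congr rfl fun L _ => ?_
  show ((M K L 0 - N K L 0) + (M K L 1 - N K L 1) * BB + (M K L 2 - N K L 2) * BB ^ 2) *
    ((BB ^ 30) ^ K * (BB ^ 3) ^ L) = _
  ring

theorem PC_add (M N : VC) : PC (M + N) = PC M + PC N := by
  unfold PC
  rw [← sum_add_distrib]
  refine sum_congr rfl fun K _ => ?_
  rw [← sum_add_distrib]
  refine sum_congr rfl fun L _ => ?_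
  show ((M K L 0 + N K L 0) + (M K L 1 + N K L 1) * BB + (M K L 2 + N K L 2) * BB ^ 2) *
    ((BB ^ 30) ^ K * (BB ^ 3) ^ L) = _
  ring

theorem PC_smul (c : ℤ) (N : VC) : PC (c • N) = c * PC N := by
  unfold PC
  rw [mul_sum]
  refine sum_congr rfl fun K _ => ?_
  rw [mul_sum]
  refine sum_congr rfl fun L _ => ?_
  show (c * N K L 0 + c * N K L 1 * BB + c * N K L 2 * BB ^ 2) *
    ((BB ^ 30) ^ K * (BB ^ 3) ^ L) = _
  ring

theorem PC_mw (I J : VA) : PC (mw I J) = PA I * QA J + PA J * QA I := by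
  unfold PC PA QA
  rw [sum_mul_sum, sum_mul_sum, ← sum_add_distrib]
  refine sum_congr rfl fun K _ => ?_
  rw [← sum_add_distrib]
  refine sum_congr rfl fun L _ => ?_
  show ((I K 0 * J L 0 + J K 0 * I L 0) +
    (I K 0 * J L 1 - I K 1 * J L 0 + (J K 0 * I L 1 - J K 1 * I L 0)) * BB +
    (-(I K 1 * J L 1) - J K 1 * I L 1) * BB ^ 2) * ((BB ^ 30) ^ K * (BB ^ 3) ^ L) = _
  ring

/-! ### relations -/

def RW (w : W2) (I : VA) : Prop := zv w.p = PA I ∧ zv w.q = QA I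
def RC (x : Z) (N : VC) : Prop := zv x = PC N

theorem RC.sub {x y : Z} {M N : VC} (hx : RC x M) (hy : RC y N) : RC (Z.sub x y) (M - N) := by
  unfold RC at *
  rw [zv_sub, hx, hy, PC_sub]

theorem RC.add {x y : Z} {M N : VC} (hx : RC x M) (hy : RC y N) : RC (Z.add x y) (M + N) := by
  unfold RC at *
  rw [zv_add, hx, hy, PC_add]

theorem RC.sh {x : Z} {M : VC} (k : ℕ) (hx : RC x M) : RC (K9.sh k x) ((2 ^ k : ℤ) • M) := by
  unfold RC at *
  rw [zv_sh, hx, PC_smul]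

theorem RC.smul {x : Z} {M : VC} (c : ℕ) (hx : RC x M) : RC (Z.mul (Z.p c) x) ((c : ℤ) • M) := by
  unfold RC at *
  rw [zv_mul, hx, PC_smul, zv_p]

theorem wmu_ok {x y : W2} {I J : VA} (hx : RW x I) (hy : RW y J) : RC (wmu x y) (mw I J) := by
  unfold RC wmu
  rw [zv_add, zv_mul, zv_mul, hx.1, hx.2, hy.1, hy.2, PC_mw]

/-- trivial shapes of leaves -/
def SN {α : Type} (_ : α) (l : List Bool) : Prop := l = []

theorem bw0 : BL 0 (fun (x : W2) (_ : Vt 0) => x) (fun (x : W2) (_ : Vt 0) => x)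
    (fun (x : Z) (_ : Vt 0) => x) RW RW RC SN SN SN mw Bw0 := by
  have hW : ∀ {x y : W2} {I J : Vt 0 → VA}, RT (fun (x : W2) (_ : Vt 0) => x) RW x I →
      RT (fun (x : W2) (_ : Vt 0) => x) RW y J →
      RT (fun (x : W2) (_ : Vt 0) => x) RW (Bw0.sa x y) (fun v => I v - J v) := by
    intro x y I J hx hy v
    refine ⟨?_, ?_⟩
    · show zv (Z.sub x.p y.p) = _
      rw [zv_sub, (hx v).1, (hy v).1, PA_sub]
    · show zv (Z.sub x.q y.q) = _
      rw [zv_sub, (hx v).2, (hy v).2, QA_sub]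
  refine ⟨hW, fun hx hy => hx, hW, fun hx hy => hx, ?_, fun hx hy => hx, ?_, fun hx => hx, ?_, ?_⟩
  · intro x y I J hx hy v
    exact (hx v).sub (hy v)
  · intro x I hx v
    have h := (hx v).sh 2
    exact h
  · intro x y l l' I J hl hl' hx hy v
    rw [show l = [] from hl, show l' = [] from hl']
    exact wmu_ok (hx v) (hy v)
  · intro x y l l' hl hl'
    rw [show l = [] from hl, show l' = [] from hl']
    rfl

/-! ### packing of nine numbers -/

/-- the entries of a vector of nine things -/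
def sel9 {γ : Type} (a b c d e f g h i : γ) : ℕ → γ
  | 0 => a
  | 1 => b
  | 2 => c
  | 3 => d
  | 4 => e
  | 5 => f
  | 6 => g
  | 7 => h
  | _ => i

theorem sel9_map {γ δ : Type} (F : γ → δ) (a b c d e f g h i : γ) (K : ℕ) :
    F (sel9 a b c d e f g h i K) = sel9 (F a) (F b) (F c) (F d) (F e) (F f) (F g) (F h) (F i) K := by
  unfold sel9
  split <;> rfl

/-- digits of a complex integer -/
def cI (x : Cx) : Fin 2 → ℤ := ![zv x.re, zv x.im]

theorem zv_cq (x : Cx) : zv (cq x) = cI x 0 + cI x 1 * BB := by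
  unfold cq
  rw [zv_add, zv_sh, two_192]
  show zv x.re + BB * zv x.im = zv x.re + zv x.im * BB
  ring

theorem zv_cp (x : Cx) : zv (cp x) = cI x 0 - cI x 1 * BB := by
  unfold cp
  rw [zv_sub, zv_sh, two_192]
  show zv x.re - BB * zv x.im = zv x.re - zv x.im * BB
  ring

theorem zv_h3 (x y : Z) : zv (h3 x y) = zv x + BB ^ 3 * zv y := by
  unfold h3
  rw [zv_add, zv_sh, two_576]

theorem zv_h30 (x y : Z) : zv (h30 x y) = zv x + BB ^ 30 * zv y := by
  unfold h30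
  rw [zv_add, zv_sh, two_5760]

theorem w9_ok (a b c d e f g h i : Cx) :
    RW (w9 a b c d e f g h i) (fun K => cI (sel9 a b c d e f g h i K)) := by
  refine ⟨?_, ?_⟩
  · show zv (h30 (cp a) (h30 (cp b) (h30 (cp c) (h30 (cp d) (h30 (cp e) (h30 (cp f)
      (h30 (cp g) (h30 (cp h) (cp i))))))))) = _
    simp only [zv_h30, zv_cp]
    unfold PA
    generalize BB ^ 30 = Y
    simp only [sum_range_succ, sum_range_zero, sel9]
    ring
  · show zv (h3 (cq a) (h3 (cq b) (h3 (cq c) (h3 (cq d) (h3 (cq e) (h3 (cq f)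
      (h3 (cq g) (h3 (cq h) (cq i))))))))) = _
    simp only [zv_h3, zv_cq]
    unfold QA
    generalize BB ^ 3 = Y
    simp only [sum_range_succ, sum_range_zero, sel9]
    ring

/-! ### zip of nine trees -/

/-- the laws of a zip -/
structure ZnL {α β : Type} (D : ℕ) (lC : α → Vt D → Cx) (lw : β → Vt D → W2)
    (Sw : β → List Bool → Prop) (F : Zn α β) : Prop where
  lf : ∀ (a b c d e f g h i : α) (v : Vt D), lw (F.z a b c d e f g h i) v =
    w9 (lC a v) (lC b v) (lC c v) (lC d v) (lC e v) (lC f v) (lC g v) (lC h v) (lC i v)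
  sh : ∀ (a b c d e f g h i : α), Sw (F.z a b c d e f g h i) (List.replicate D true)

theorem ZnL.zero : ZnL 0 (fun (x : Cx) (_ : Vt 0) => x) (fun (x : W2) (_ : Vt 0) => x) SN Zn0 :=
  ⟨fun _ _ _ _ _ _ _ _ _ _ => rfl, fun _ _ _ _ _ _ _ _ _ => rfl⟩

theorem ZnL.step {α β : Type} {D : ℕ} {lC : α → Vt D → Cx} {lw : β → Vt D → W2}
    {Sw : β → List Bool → Prop} {F : Zn α β} (H : ZnL D lC lw Sw F) :
    ZnL (D + 1) (lf3 lC) (lf3 lw) (sh3 Sw) (nxZn F) := by
  refine ⟨fun a b c d e f g h i v => ?_, fun a b c d e f g h i => ?_⟩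
  · obtain ⟨u, j⟩ := v
    show lw (ct ((nxZn F).z a b c d e f g h i) j) u = w9 (lC (ct a j) u) (lC (ct b j) u)
      (lC (ct c j) u) (lC (ct d j) u) (lC (ct e j) u) (lC (ct f j) u) (lC (ct g j) u)
      (lC (ct h j) u) (lC (ct i j) u)
    rw [← H.lf]
    fin_cases j
    · show lw (F.z (fa a) (fa b) (fa c) (fa d) (fa e) (fa f) (fa g) (fa h) (fa i)) u = _
      simp only [fa_ct]
      rfl
    · show lw (F.z (fc a) (fc b) (fc c) (fc d) (fc e) (fc f) (fc g) (fc h) (fc i)) u = _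
      simp only [fc_ct]
      rfl
    · show lw (F.z (fb a) (fb b) (fb c) (fb d) (fb e) (fb f) (fb g) (fb h) (fb i)) u = _
      simp only [fb_ct]
      rfl
  · exact ⟨H.sh _ _ _ _ _ _ _ _ _, H.sh _ _ _ _ _ _ _ _ _, H.sh _ _ _ _ _ _ _ _ _⟩

/-- the entry number `K` -/
def V9.at {α : Type} (V : V9 α) (K : ℕ) : Mo α := sel9 V.a V.b V.c V.d V.e V.f V.g V.h V.i K

/-- THE PACKED VECTOR -/
theorem pkV_ok {α β : Type} {D : ℕ} {lC : α → Vt D → Cx} {lw : β → Vt D → W2}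
    {Sw : β → List Bool → Prop} {F : Zn α β} (H : ZnL D lC lw Sw F) (V : V9 α) :
    RT lw RW (pkV F V) (fun v K => cI (lC (V.at K).v v)) ∧ Sw (pkV F V) (List.replicate D true) := by
  refine ⟨fun v => ?_, H.sh _ _ _ _ _ _ _ _ _⟩
  show RW (lw (F.z V.a.v V.b.v V.c.v V.d.v V.e.v V.f.v V.g.v V.h.v V.i.v) v) _
  rw [H.lf]
  have h := w9_ok (lC V.a.v v) (lC V.b.v v) (lC V.c.v v) (lC V.d.v v) (lC V.e.v v) (lC V.f.v v)
    (lC V.g.v v) (lC V.h.v v) (lC V.i.v v)
  have e : (fun K => cI (lC (V.at K).v v)) = fun K => cI (sel9 (lC V.a.v v) (lC V.b.v v)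
      (lC V.c.v v) (lC V.d.v v) (lC V.e.v v) (lC V.f.v v) (lC V.g.v v) (lC V.h.v v)
      (lC V.i.v v) K) := by
    funext K
    rw [← sel9_map (fun m : Mo α => lC m.v v)]
    rfl
  show RW _ (fun K => cI (lC (V.at K).v v))
  rw [e]
  exact h

end Pool.Agent.Helper17.K9
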