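import Pool.Agent.Helper17.K9.K9A

/-!
Row K9 of MP_c75db0 (plan W), matrix side, part B: forms of order 3, their products.
-/

set_option autoImplicit false
set_option exponentiation.threshold 60000
noncomputable section
namespace Pool.Agent.Helper17.K9

open Pool.Agent.Helper86.C75 (Z)
open Pool.Agent.Helper86.CX (Cx andB)
open Pool.Agent.Helper86.CT (N3 Bil nxB bi un fa fc fb Mo)
open Pool.Agent.Helper90.C75 (Vt)
open Pool.Agent.Helper90.KMO (zv zv_add zv_sub zv_mul zv_p zv_m)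
open Pool.Agent.Helper17.KPT
open Finset

/-- digits of a form of order 3 -/
abbrev VF : Type := ℕ → ℕ → Fin 2 → ℤ

/-- the packed form -/
def PF (m : ℕ) (X : VF) : ℤ := ∑ j ∈ range 3, ∑ l ∈ range 3,
  (X j l 0 + X j l 1 * BB) * ((BB ^ (30 * m)) ^ j * (BB ^ (3 * m)) ^ l)

theorem PF_sub (m : ℕ) (X Y : VF) : PF m (X - Y) = PF m X - PF m Y := by
  unfold PF
  rw [← sum_sub_distrib]
  refine sum_congr rfl fun j _ => ?_
  rw [← sum_sub_distrib]
  refine sum_congr rfl fun l _ => ?_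
  show ((X j l 0 - Y j l 0) + (X j l 1 - Y j l 1) * BB) *
    ((BB ^ (30 * m)) ^ j * (BB ^ (3 * m)) ^ l) = _
  ring

/-- product: the first form is on the first index -/
def mk2 (X Y : VF) : VC := fun K L =>
  ![X (K / 3) (L / 3) 0 * Y (K % 3) (L % 3) 0,
    X (K / 3) (L / 3) 0 * Y (K % 3) (L % 3) 1 + X (K / 3) (L / 3) 1 * Y (K % 3) (L % 3) 0,
    X (K / 3) (L / 3) 1 * Y (K % 3) (L % 3) 1]

theorem sum9' (f : ℕ → ℤ) : ∑ K ∈ range 9, f K = ∑ i ∈ range 3, ∑ j ∈ range 3, f (3 * i + j) := by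
  simp only [sum_range_succ, sum_range_zero]
  ring

theorem div3 {i j : ℕ} (h : j < 3) : (3 * i + j) / 3 = i := by omega
theorem mod3 {i j : ℕ} (h : j < 3) : (3 * i + j) % 3 = j := by omega

theorem PC_mk2 (X Y : VF) : PC (mk2 X Y) = PF 3 X * PF 1 Y := by
  have e1 : PC (mk2 X Y) = ∑ i ∈ range 3, ∑ j ∈ range 3, ∑ k ∈ range 3, ∑ l ∈ range 3,
      ((X i k 0 + X i k 1 * BB) * ((BB ^ (30 * 3)) ^ i * (BB ^ (3 * 3)) ^ k)) *
        ((Y j l 0 + Y j l 1 * BB) * ((BB ^ (30 * 1)) ^ j * (BB ^ (3 * 1)) ^ l)) := by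
    unfold PC
    rw [sum9']
    refine sum_congr rfl fun i _ => sum_congr rfl fun j hj => ?_
    rw [sum9']
    refine sum_congr rfl fun k _ => sum_congr rfl fun l hl => ?_
    have hj' := mem_range.1 hj
    have hl' := mem_range.1 hl
    show (X ((3 * i + j) / 3) ((3 * k + l) / 3) 0 * Y ((3 * i + j) % 3) ((3 * k + l) % 3) 0 +
      (X ((3 * i + j) / 3) ((3 * k + l) / 3) 0 * Y ((3 * i + j) % 3) ((3 * k + l) % 3) 1 +
      X ((3 * i + j) / 3) ((3 * k + l) / 3) 1 * Y ((3 * i + j) % 3) ((3 * k + l) % 3) 0) * BB +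
      X ((3 * i + j) / 3) ((3 * k + l) / 3) 1 * Y ((3 * i + j) % 3) ((3 * k + l) % 3) 1 *
        BB ^ 2) * ((BB ^ 30) ^ (3 * i + j) * (BB ^ 3) ^ (3 * k + l)) = _
    rw [div3 hj', div3 hl', mod3 hj', mod3 hl']
    rw [show (BB ^ 30) ^ (3 * i + j) = (BB ^ (30 * 3)) ^ i * (BB ^ (30 * 1)) ^ j by
        rw [← pow_mul, ← pow_mul, ← pow_mul, ← pow_add]; congr 1; ring,
      show (BB ^ 3) ^ (3 * k + l) = (BB ^ (3 * 3)) ^ k * (BB ^ (3 * 1)) ^ l by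
        rw [← pow_mul, ← pow_mul, ← pow_mul, ← pow_add]; congr 1; ring]
    ring
  rw [e1]
  unfold PF
  rw [sum_mul_sum]
  -- both sides as fourfold sums
  refine sum_congr rfl fun i _ => ?_
  have e2 : ∀ j ∈ range 3, ∑ k ∈ range 3, ∑ l ∈ range 3,
      ((X i k 0 + X i k 1 * BB) * ((BB ^ (30 * 3)) ^ i * (BB ^ (3 * 3)) ^ k)) *
        ((Y j l 0 + Y j l 1 * BB) * ((BB ^ (30 * 1)) ^ j * (BB ^ (3 * 1)) ^ l)) =
      (∑ k ∈ range 3, (X i k 0 + X i k 1 * BB) * ((BB ^ (30 * 3)) ^ i * (BB ^ (3 * 3)) ^ k)) *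
        ∑ l ∈ range 3, (Y j l 0 + Y j l 1 * BB) * ((BB ^ (30 * 1)) ^ j * (BB ^ (3 * 1)) ^ l) := by
    intro j _
    rw [sum_mul_sum]
  exact sum_congr rfl e2

/-! ### relations -/

def RF (m : ℕ) (x : Z) (X : VF) : Prop := zv x = PF m X

theorem RF.sub {m : ℕ} {x y : Z} {X Y : VF} (hx : RF m x X) (hy : RF m y Y) :
    RF m (Z.sub x y) (X - Y) := by
  unfold RF at *
  rw [zv_sub, hx, hy, PF_sub]

theorem RF.mul {x y : Z} {X Y : VF} (hx : RF 3 x X) (hy : RF 1 y Y) :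
    RC (Z.mul x y) (mk2 X Y) := by
  unfold RF RC at *
  rw [zv_mul, hx, hy, PC_mk2]

theorem bk0 : BL 0 (fun (x : Z) (_ : Vt 0) => x) (fun (x : Z) (_ : Vt 0) => x)
    (fun (x : Z) (_ : Vt 0) => x) (RF 3) (RF 1) RC SN SN SN mk2 Bk0 := by
  refine ⟨fun hx hy v => (hx v).sub (hy v), fun hx hy => hx, fun hx hy v => (hx v).sub (hy v),
    fun hx hy => hx, fun hx hy v => (hx v).sub (hy v), fun hx hy => hx, ?_, fun hx => hx, ?_, ?_⟩
  · intro x I hx v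
    exact (hx v).sh 2
  · intro x y l l' I J hl hl' hx hy v
    rw [show l = [] from hl, show l' = [] from hl']
    exact (hx v).mul (hy v)
  · intro x y l l' hl hl'
    rw [show l = [] from hl, show l' = [] from hl']
    rfl

/-! ### tables -/

/-- the field number `k` of a table -/
def fl (T k : ℕ) : ℤ := (v32 T (32 * k) : ℤ) - 2 ^ 31

/-- digits from nine numbers: `s` is the sign pattern of `J T^t J` if `true` -/
def dF (a b c x x' y y' w w' : ℤ) : VF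
  | 0, 0 => ![a, 0]
  | 1, 1 => ![b, 0]
  | 2, 2 => ![c, 0]
  | 0, 1 => ![x, x']
  | 1, 0 => ![x, -x']
  | 0, 2 => ![y, y']
  | 2, 0 => ![y, -y']
  | 1, 2 => ![w, w']
  | 2, 1 => ![w, -w']
  | _, _ => 0

/-- the form of a table -/
def tD (T : ℕ) : VF := dF (fl T 0) (fl T 1) (fl T 2) (fl T 3) (fl T 4) (fl T 5) (fl T 6) (fl T 7)
  (fl T 8)
/-- the form `J T^t J` -/
def tC (T : ℕ) : VF := dF (fl T 0) (fl T 1) (fl T 2) (fl T 3) (-fl T 4) (-fl T 5) (fl T 6)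
  (-fl T 7) (fl T 8)

theorem sl_eq (m k n : ℕ) : sl m k n = n * 2 ^ (m * k) := Nat.shiftLeft_eq _ _
theorem sl'_eq (m k n : ℕ) : sl' m k n = n * 2 ^ (m * k + 192) := Nat.shiftLeft_eq _ _

theorem pw (m k : ℕ) : (2 : ℤ) ^ (m * (192 * k)) = BB ^ (k * m) := by
  rw [← two_BB]
  congr 1
  ring

theorem pw' (m k : ℕ) : (2 : ℤ) ^ (m * (192 * k) + 192) = BB ^ (k * m) * BB := by
  rw [pow_add, pw]
  rfl

theorem zv_hat1 (m : ℕ) (a b c x x' y y' w w' : ℕ) :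
    zv (hat1 m (hpos m a b c x x' y y' w w') (hneg m x' y' w')) =
      PF m (dF ((a : ℤ) - 2 ^ 31) ((b : ℤ) - 2 ^ 31) ((c : ℤ) - 2 ^ 31) ((x : ℤ) - 2 ^ 31)
        ((x' : ℤ) - 2 ^ 31) ((y : ℤ) - 2 ^ 31) ((y' : ℤ) - 2 ^ 31) ((w : ℤ) - 2 ^ 31)
        ((w' : ℤ) - 2 ^ 31)) := by
  have hp : ∀ a b c x x' y y' w w' : ℕ, ((hpos m a b c x x' y y' w w' : ℕ) : ℤ) =
      a + b * BB ^ (33 * m) + c * BB ^ (66 * m) + (x * BB ^ (3 * m) + x * BB ^ (30 * m) +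
        x' * (BB ^ (3 * m) * BB)) + (y * BB ^ (6 * m) + y * BB ^ (60 * m) +
        y' * (BB ^ (6 * m) * BB) + (w * BB ^ (36 * m) + w * BB ^ (63 * m) +
        w' * (BB ^ (36 * m) * BB))) := by
    intro a b c x x' y y' w w'
    show (((a + sl m 6336 b + sl m 12672 c + (sl m 576 x + sl m 5760 x + sl' m 576 x')) +
      (sl m 1152 y + sl m 11520 y + sl' m 1152 y' + (sl m 6912 w + sl m 12096 w +
        sl' m 6912 w')) : ℕ) : ℤ) = _
    simp only [sl_eq, sl'_eq]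
    push_cast
    rw [show (6336 : ℕ) = 192 * 33 from rfl, show (12672 : ℕ) = 192 * 66 from rfl,
      show (576 : ℕ) = 192 * 3 from rfl, show (5760 : ℕ) = 192 * 30 from rfl,
      show (1152 : ℕ) = 192 * 6 from rfl, show (11520 : ℕ) = 192 * 60 from rfl,
      show (6912 : ℕ) = 192 * 36 from rfl, show (12096 : ℕ) = 192 * 63 from rfl]
    simp only [pw, pw']
  have hn : ∀ x' y' w' : ℕ, ((hneg m x' y' w' : ℕ) : ℤ) =
      x' * (BB ^ (30 * m) * BB) + (y' * (BB ^ (60 * m) * BB) + w' * (BB ^ (63 * m) * BB)) := by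
    intro x' y' w'
    show ((sl' m 5760 x' + (sl' m 11520 y' + sl' m 12096 w') : ℕ) : ℤ) = _
    simp only [sl'_eq]
    push_cast
    rw [show (5760 : ℕ) = 192 * 30 from rfl,
      show (11520 : ℕ) = 192 * 60 from rfl, show (12096 : ℕ) = 192 * 63 from rfl]
    simp only [pw']
  have e : zv (hat1 m (hpos m a b c x x' y y' w w') (hneg m x' y' w')) =
      ((hpos m a b c x x' y y' w w' + hcn m : ℕ) : ℤ) - ((hneg m x' y' w' + hcp m : ℕ) : ℤ) :=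
    Pool.Agent.Helper90.KMO.zv_br _ _
  rw [e]
  push_cast
  have hcp' := hp H31 H31 H31 H31 H31 H31 H31 H31 H31
  have hcn' := hn H31 H31 H31
  have h31 : ((H31 : ℕ) : ℤ) = 2 ^ 31 := rfl
  rw [h31] at hcp' hcn'
  rw [show ((hcp m : ℕ) : ℤ) = ((hpos m H31 H31 H31 H31 H31 H31 H31 H31 H31 : ℕ) : ℤ) from rfl,
    show ((hcn m : ℕ) : ℤ) = ((hneg m H31 H31 H31 : ℕ) : ℤ) from rfl, hcp', hcn', hp, hn]
  unfold PF
  simp only [sum_range_succ, sum_range_zero, dF, Matrix.cons_val_zero, Matrix.cons_val_one]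
  rw [show BB ^ (33 * m) = BB ^ (30 * m) * BB ^ (3 * m) by rw [← pow_add]; congr 1; ring,
    show BB ^ (66 * m) = (BB ^ (30 * m)) ^ 2 * (BB ^ (3 * m)) ^ 2 by
      rw [← pow_mul, ← pow_mul, ← pow_add]; congr 1; ring,
    show BB ^ (6 * m) = (BB ^ (3 * m)) ^ 2 by rw [← pow_mul]; congr 1; ring,
    show BB ^ (60 * m) = (BB ^ (30 * m)) ^ 2 by rw [← pow_mul]; congr 1; ring,
    show BB ^ (36 * m) = BB ^ (30 * m) * (BB ^ (3 * m)) ^ 2 by
      rw [← pow_mul, ← pow_add]; congr 1; ring,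
    show BB ^ (63 * m) = (BB ^ (30 * m)) ^ 2 * BB ^ (3 * m) by
      rw [← pow_mul, ← pow_add]; congr 1; ring]
  generalize BB ^ (30 * m) = Y
  generalize BB ^ (3 * m) = X
  ring

theorem hat_ok (m T : ℕ) : RF m (hat m T) (tD T) := zv_hat1 m _ _ _ _ _ _ _ _ _

theorem v32_lt (T k : ℕ) : v32 T k < 2 ^ 32 := Nat.mod_lt _ (by norm_num)

theorem ng_eq (u : ℕ) (h : u < 2 ^ 32) : ((ng u : ℕ) : ℤ) - 2 ^ 31 = -((u : ℤ) - 2 ^ 31) := by
  have h' : u ≤ 4294967296 := by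
    norm_num at h
    exact h.le
  have e : ((4294967296 - u : ℕ) : ℤ) = 4294967296 - (u : ℤ) := by
    rw [Nat.cast_sub h']
    rfl
  show ((4294967296 - u : ℕ) : ℤ) - 2 ^ 31 = _
  rw [e]
  ring

theorem hcv_ok (m T : ℕ) : RF m (hcv m T) (tC T) := by
  have h := zv_hat1 m (v32 T 0) (v32 T 32) (v32 T 64) (v32 T 96) (ng (v32 T 128))
    (ng (v32 T 160)) (v32 T 192) (ng (v32 T 224)) (v32 T 256)
  rw [ng_eq _ (v32_lt _ _), ng_eq _ (v32_lt _ _), ng_eq _ (v32_lt _ _)] at h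
  exact h

end Pool.Agent.Helper17.K9
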