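import Pool.Agent.Helper17.K9.K9B

/-!
Row K9 of MP_c75db0 (plan W), matrix side, part C: laws of the trees, the tree of the multipliers.
-/

set_option autoImplicit false
set_option exponentiation.threshold 60000
noncomputable section
namespace Pool.Agent.Helper17.K9

open Pool.Agent.Helper86.C75 (Z)
open Pool.Agent.Helper86.CX (Cx andB)
open Pool.Agent.Helper86.CT (N3 Bil nxB bi un fa fc fb Mo Alg)
open Pool.Agent.Helper90.C75 (Vt)
open Pool.Agent.Helper90.KMO (zv zv_add zv_sub zv_mul zv_p zv_m)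
open Pool.Agent.Helper17.KPT
open Pool.Agent.Helper17.PAK (andB_iff)
open Finset

/-! ### builders -/

/-- leaves of a tree of tables, quadratic direction -/
def lQ {κ : Type} {D : ℕ} (lk : κ → Vt D → ℕ) : Tr κ → Vt (D + 1) → ℕ :=
  fun T v => lk ((![T.a, T.c, T.b] : Fin 3 → κ) v.2) v.1
/-- constant direction -/
def lK {κ : Type} {D : ℕ} (lk : κ → Vt D → ℕ) : κ → Vt (D + 1) → ℕ := fun T v => lk T v.1

/-- the laws of a builder; `l`: the shape -/
structure KbL {κ σ : Type} (D : ℕ) (lz : σ → Vt D → Z) (Sz : σ → List Bool → Prop)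
    (lk : κ → Vt D → ℕ) (l : List Bool) (U : Kb κ σ) : Prop where
  lf : ∀ (f : ℕ → Z) (T : κ) (v : Vt D), lz (U.up f T) v = f (lk T v)
  sh : ∀ (f : ℕ → Z) (T : κ), Sz (U.up f T) l
  fs : ∀ T : κ, FSh D l (lk T)

theorem KbL.zero : KbL 0 (fun (x : Z) (_ : Vt 0) => x) SN (fun (x : ℕ) (_ : Vt 0) => x) [] Kb0 :=
  ⟨fun _ _ _ => rfl, fun _ _ => rfl, fun _ => trivial⟩

theorem KbL.q {κ σ : Type} {D : ℕ} {lz : σ → Vt D → Z} {Sz : σ → List Bool → Prop}
    {lk : κ → Vt D → ℕ} {l : List Bool} {U : Kb κ σ} (h : KbL D lz Sz lk l U) :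
    KbL (D + 1) (lf3 lz) (sh3 Sz) (lQ lk) (true :: l) (nxQ U) := by
  refine ⟨fun f T v => ?_, fun f T => ⟨h.sh f _, h.sh f _, h.sh f _⟩, fun T i => h.fs _⟩
  obtain ⟨u, i⟩ := v
  show lz (ct ((nxQ U).up f T) i) u = f (lk ((![T.a, T.c, T.b] : Fin 3 → κ) i) u)
  rw [← h.lf f]
  fin_cases i <;> rfl

theorem KbL.k {κ σ : Type} {D : ℕ} {lz : σ → Vt D → Z} {Sz : σ → List Bool → Prop}
    {lk : κ → Vt D → ℕ} {l : List Bool} {U : Kb κ σ} (h : KbL D lz Sz lk l U) :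
    KbL (D + 1) (lf3 lz) (sh3 Sz) (lK lk) (false :: l) (nxK U) :=
  ⟨fun f T v => h.lf f T v.1, fun f T => h.sh f T, fun T => ⟨fun _ _ => rfl, h.fs T⟩⟩

/-! ### leafwise operations -/

def LbL {σ : Type} (D : ℕ) (lz : σ → Vt D → Z) (L : Lb σ) : Prop :=
  ∀ (g : Z → Z → Z) (x y : σ) (v : Vt D), lz (L.f g x y) v = g (lz x v) (lz y v)

theorem LbL.zero : LbL 0 (fun (x : Z) (_ : Vt 0) => x) Lb0 := fun _ _ _ _ => rfl

theorem LbL.step {σ : Type} {D : ℕ} {lz : σ → Vt D → Z} {L : Lb σ} (h : LbL D lz L) :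
    LbL (D + 1) (lf3 lz) (nxLb L) := by
  intro g x y v
  show lz (ct (bi (L.f g) x y) v.2) v.1 = _
  rw [ct_bi, h]
  rfl

/-! ### tests -/

/-- twice the second difference -/
def sd (a c b : Z) : Z := Z.sub (Z.add c c) (Z.add a b)

/-- the meaning of a test of a tree -/
def TK (g : Z → Bool) : (D : ℕ) → List ℕ → (Vt D → Z) → Prop
  | 0, _, G => g (G ()) = true
  | _ + 1, [], _ => False
  | D + 1, h :: tl, G =>
    if h = 0 then ∀ i : Fin 3, TK g D tl (fun u => G (u, i))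
    else (∀ u, rz h (sd (G (u, 0)) (G (u, 1)) (G (u, 2))) = true) ∧
      TK g D tl (fun u => G (u, 0)) ∧ TK g D tl (fun u => G (u, 2))

structure TsL {σ : Type} (D : ℕ) (lz : σ → Vt D → Z) (T : Ts σ) : Prop where
  all : ∀ (f : Z → Bool) (x : σ), T.all f x = true → ∀ v, f (lz x v) = true
  sub : ∀ (x y : σ) (v : Vt D), lz (T.sub x y) v = Z.sub (lz x v) (lz y v)
  ad : ∀ (x y : σ) (v : Vt D), lz (T.ad x y) v = Z.add (lz x v) (lz y v)
  t : ∀ (g : Z → Bool) (l : List ℕ) (x : σ), T.t g l x = true → TK g D l (lz x)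

theorem TsL.zero : TsL 0 (fun (x : Z) (_ : Vt 0) => x) Ts0 :=
  ⟨fun _ _ h _ => h, fun _ _ _ => rfl, fun _ _ _ => rfl, fun _ _ _ h => h⟩

theorem andB2 {x y : Bool} (h : andB x y = true) : x = true ∧ y = true := by
  rw [andB_iff] at h
  exact h

theorem TsL.step {σ : Type} {D : ℕ} {lz : σ → Vt D → Z} {T : Ts σ} (h : TsL D lz T) :
    TsL (D + 1) (lf3 lz) (nxTs T) := by
  refine ⟨fun f x H v => ?_, fun x y v => ?_, fun x y v => ?_, fun g l x H => ?_⟩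
  · obtain ⟨u, i⟩ := v
    obtain ⟨h1, h2⟩ := andB2 (show andB (T.all f (fa x)) (andB (T.all f (fc x)) (T.all f (fb x))) =
      true from H)
    obtain ⟨h2, h3⟩ := andB2 h2
    rw [fa_ct] at h1
    rw [fc_ct] at h2
    rw [fb_ct] at h3
    show f (lz (ct x i) u) = true
    fin_cases i
    · exact h.all f _ h1 u
    · exact h.all f _ h2 u
    · exact h.all f _ h3 u
  · show lz (ct (bi T.sub x y) v.2) v.1 = _
    rw [ct_bi, h.sub]
    rfl
  · show lz (ct (bi T.ad x y) v.2) v.1 = _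
    rw [ct_bi, h.ad]
    rfl
  · cases l with
    | nil =>
      have H0 : false = true := H
      exact absurd H0 (by decide)
    | cons k tl =>
      have H1 : ts1 T g k tl (fa x) (fc x) (fb x) = true := H
      unfold ts1 at H1
      rw [fa_ct, fc_ct, fb_ct] at H1
      show (if k = 0 then ∀ i : Fin 3, TK g D tl (fun u => lz (ct x i) u)
        else (∀ u, rz k (sd (lz (ct x 0) u) (lz (ct x 1) u) (lz (ct x 2) u)) = true) ∧
          TK g D tl (fun u => lz (ct x 0) u) ∧ TK g D tl (fun u => lz (ct x 2) u))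
      by_cases hk : k = 0
      · rw [if_pos hk]
        subst hk
        obtain ⟨h1, h2⟩ := andB2 (show andB (T.t g tl (ct x 0)) (andB (T.t g tl (ct x 1))
          (T.t g tl (ct x 2))) = true from H1)
        obtain ⟨h2, h3⟩ := andB2 h2
        intro i
        fin_cases i
        · exact h.t g tl _ h1
        · exact h.t g tl _ h2
        · exact h.t g tl _ h3
      · rw [if_neg hk]
        have hb : Nat.beq k (nat_lit 0) = false := by
          cases hb : Nat.beq k (nat_lit 0) with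
          | false => rfl
          | true => exact absurd (Nat.eq_of_beq_eq_true hb) hk
        rw [hb] at H1
        obtain ⟨h1, h2⟩ := andB2 (show andB (T.all (rz k) (T.sub (T.ad (ct x 1) (ct x 1))
          (T.ad (ct x 0) (ct x 2)))) (andB (T.t g tl (ct x 0)) (T.t g tl (ct x 2))) = true from H1)
        obtain ⟨h2, h3⟩ := andB2 h2
        refine ⟨fun u => ?_, h.t g tl _ h2, h.t g tl _ h3⟩
        have h4 := h.all (rz k) _ h1 u
        rw [h.sub, h.ad, h.ad] at h4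
        exact h4

/-! ### the machine -/

/-- the laws of a machine -/
structure MwL {α β σ κ : Type} (D : ℕ) (lC : α → Vt D → Cx) (lw : β → Vt D → W2)
    (lz : σ → Vt D → Z) (Sw : β → List Bool → Prop) (Sz : σ → List Bool → Prop)
    (lk : κ → Vt D → ℕ) (l : List Bool) (X : Mw α β σ κ) : Prop where
  zn : ZnL D lC lw Sw X.Zn
  bw : BL D lw lw lz RW RW RC Sw Sw Sz mw X.B
  bk : BL D lz lz lz (RF 3) (RF 1) RC Sz Sz Sz mk2 X.Bk
  kb : KbL D lz Sz lk l X.K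
  lb : LbL D lz X.L
  ts : TsL D lz X.T
  d : X.d = D
  e : X.e = cnt l

/-- the digits of the tree of a block -/
def Fdig {α : Type} {D : ℕ} (lC : α → Vt D → Cx) (M A : V9 α) : Vt D → VC :=
  mulZ mw D (List.replicate D true) (fun v K => cI (lC (M.at K).v v))
    (fun v K => cI (lC (A.at K).v v))

theorem and2_self' : ∀ n : ℕ, and2 (List.replicate n true) (List.replicate n true) =
    List.replicate n true
  | 0 => rfl
  | n + 1 => by
    rw [List.replicate_succ]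
    show true :: and2 (List.replicate n true) (List.replicate n true) = _
    rw [and2_self' n]

theorem mkF_ok {α β σ κ : Type} {D : ℕ} {lC : α → Vt D → Cx} {lw : β → Vt D → W2}
    {lz : σ → Vt D → Z} {Sw : β → List Bool → Prop} {Sz : σ → List Bool → Prop}
    {lk : κ → Vt D → ℕ} {l : List Bool} {X : Mw α β σ κ} (H : MwL D lC lw lz Sw Sz lk l X)
    (M A : V9 α) (v : Vt D) : RC (lz (mkF X M A) v) (Fdig lC M A v) := by
  obtain ⟨h1, s1⟩ := pkV_ok H.zn M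
  obtain ⟨h2, s2⟩ := pkV_ok H.zn A
  have h := H.bw.mu s1 s2 h1 h2
  rw [and2_self'] at h
  exact h v

/-- the digits of the tree of the multipliers -/
def Sdig (D e : ℕ) (m : Ml) (T1 T2 : Vt D → ℕ) (l : List Bool) (v : Vt D) : VC :=
  (2 ^ (42 + 2 * D) : ℤ) • ((mk2 (tD m.P) (tD (T1 v)) + mk2 (tC (T2 v)) (tD m.Q)) +
    (2 ^ 31 : ℤ) • (mk2 (tD TJ) (tD m.H1) + mk2 (tD m.H2) (tD TJ))) +
  (2 ^ (11 + 2 * (D - e)) : ℤ) • ((m.c : ℤ) • mulZ mk2 D l (fun v => tC (T2 v))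
    (fun v => tD (T1 v)) v)

theorem and2_self (l : List Bool) : and2 l l = l := by
  induction l with
  | nil => rfl
  | cons b l ih =>
    show (b && b) :: and2 l l = b :: l
    rw [ih, Bool.and_self]

theorem mkS_ok {α β σ κ : Type} {D : ℕ} {lC : α → Vt D → Cx} {lw : β → Vt D → W2}
    {lz : σ → Vt D → Z} {Sw : β → List Bool → Prop} {Sz : σ → List Bool → Prop}
    {lk : κ → Vt D → ℕ} {l : List Bool} {X : Mw α β σ κ} (H : MwL D lC lw lz Sw Sz lk l X)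
    (T1 T2 : κ) (m : Ml) (v : Vt D) :
    RC (lz (mkS X (mkKF X.K T1).h1 (mkKF X.K T2).h3 m) v) (Sdig D X.e m (lk T1) (lk T2) l v) := by
  have h1 : RT lz (RF 1) (mkKF X.K T1).h1 (fun v => tD (lk T1 v)) := by
    intro v
    show RF 1 (lz (X.K.up (hat 1) T1) v) _
    rw [H.kb.lf]
    exact hat_ok 1 _
  have h2 : RT lz (RF 3) (mkKF X.K T2).h3 (fun v => tC (lk T2 v)) := by
    intro v
    show RF 3 (lz (X.K.up (hcv 3) T2) v) _
    rw [H.kb.lf]
    exact hcv_ok 3 _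
  have s1 : Sz (mkKF X.K T1).h1 l := H.kb.sh _ _
  have s2 : Sz (mkKF X.K T2).h3 l := H.kb.sh _ _
  have h3 := H.bk.mu s2 s1 h2 h1
  rw [and2_self] at h3
  show RC (lz (X.L.f (sAd (11 + 2 * (X.d - X.e)) m.c) (X.L.f (sPQ (42 + 2 * X.d) (hat 3 m.P)
    (hat 1 m.Q) (sh 31 (jp m))) (mkKF X.K T1).h1 (mkKF X.K T2).h3)
    (X.Bk.mu (mkKF X.K T2).h3 (mkKF X.K T1).h1)) v) _
  rw [H.lb, H.lb, H.d]
  have hj : RC (jp m) (mk2 (tD TJ) (tD m.H1) + mk2 (tD m.H2) (tD TJ)) :=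
    ((hat_ok 3 TJ).mul (hat_ok 1 m.H1)).add ((hat_ok 3 m.H2).mul (hat_ok 1 TJ))
  have hp : RC (sPQ (42 + 2 * D) (hat 3 m.P) (hat 1 m.Q) (sh 31 (jp m))
      (lz (mkKF X.K T1).h1 v) (lz (mkKF X.K T2).h3 v))
      ((2 ^ (42 + 2 * D) : ℤ) • ((mk2 (tD m.P) (tD (lk T1 v)) + mk2 (tC (lk T2 v)) (tD m.Q)) +
        (2 ^ 31 : ℤ) • (mk2 (tD TJ) (tD m.H1) + mk2 (tD m.H2) (tD TJ)))) :=
    RC.sh _ ((((hat_ok 3 m.P).mul (h1 v)).add ((h2 v).mul (hat_ok 1 m.Q))).add (hj.sh 31))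
  have hc := ((h3 v).smul m.c).sh (11 + 2 * (D - X.e))
  exact hp.add hc

/-! ### the machines -/

open Pool.Agent.Helper86.CT (A1 A2 A3 A4)

/-- leaves of complex trees -/
def lC0 : Cx → Vt 0 → Cx := fun x _ => x
def lw0 : W2 → Vt 0 → W2 := fun x _ => x
def lz0 : Z → Vt 0 → Z := fun x _ => x
def lk0' : ℕ → Vt 0 → ℕ := fun x _ => x

theorem Mw3c_ok : MwL 3 (lf3 (lf3 (lf3 lC0))) (lf3 (lf3 (lf3 lw0))) (lf3 (lf3 (lf3 lz0)))
    (sh3 (sh3 (sh3 SN))) (sh3 (sh3 (sh3 SN))) (lK (lK (lK lk0'))) [false, false, false] Mw3c :=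
  ⟨ZnL.zero.step.step.step, bw0.step.step.step, bk0.step.step.step, KbL.zero.k.k.k,
    LbL.zero.step.step.step, TsL.zero.step.step.step, rfl, rfl⟩

theorem Mw3q_ok : MwL 3 (lf3 (lf3 (lf3 lC0))) (lf3 (lf3 (lf3 lw0))) (lf3 (lf3 (lf3 lz0)))
    (sh3 (sh3 (sh3 SN))) (sh3 (sh3 (sh3 SN))) (lQ (lQ (lQ lk0'))) [true, true, true] Mw3q :=
  ⟨ZnL.zero.step.step.step, bw0.step.step.step, bk0.step.step.step, KbL.zero.q.q.q,
    LbL.zero.step.step.step, TsL.zero.step.step.step, rfl, rfl⟩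

theorem Mw4c_ok : MwL 4 (lf3 (lf3 (lf3 (lf3 lC0)))) (lf3 (lf3 (lf3 (lf3 lw0))))
    (lf3 (lf3 (lf3 (lf3 lz0)))) (sh3 (sh3 (sh3 (sh3 SN)))) (sh3 (sh3 (sh3 (sh3 SN))))
    (lK (lK (lK (lK lk0')))) [false, false, false, false] Mw4c :=
  ⟨ZnL.zero.step.step.step.step, bw0.step.step.step.step, bk0.step.step.step.step,
    KbL.zero.k.k.k.k, LbL.zero.step.step.step.step, TsL.zero.step.step.step.step, rfl, rfl⟩

theorem Mw4q_ok : MwL 4 (lf3 (lf3 (lf3 (lf3 lC0)))) (lf3 (lf3 (lf3 (lf3 lw0))))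
    (lf3 (lf3 (lf3 (lf3 lz0)))) (sh3 (sh3 (sh3 (sh3 SN)))) (sh3 (sh3 (sh3 (sh3 SN))))
    (lK (lQ (lQ (lQ lk0')))) [false, true, true, true] Mw4q :=
  ⟨ZnL.zero.step.step.step.step, bw0.step.step.step.step, bk0.step.step.step.step,
    KbL.zero.q.q.q.k, LbL.zero.step.step.step.step, TsL.zero.step.step.step.step, rfl, rfl⟩

end Pool.Agent.Helper17.K9
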