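import Pool.Agent.Helper17.K9.K9C
import Pool.Agent.Helper90.CX.K9B

/-!
Row K9 of MP_c75db0 (plan W), matrix side, part E: the digits of a packed matrix, literals.
-/

set_option autoImplicit false
set_option exponentiation.threshold 60000
noncomputable section
namespace Pool.Agent.Helper17.K9

open Pool.Agent.Helper86.C75 (Z)
open Pool.Agent.Helper86.CX (Cx andB)
open Pool.Agent.Helper90.KMO (zv zv_add zv_sub zv_mul zv_p zv_m)
open Pool.Agent.Helper90.K9
open Finset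

/-! ### literals as digits -/

/-- the digit `k` belongs to an entry, real part (`e = 0`) or imaginary part (`e = 1`) -/
def sl01 (k : ℕ) : Bool := decide (k % 30 < 27) && decide (k % 3 < 2)
def sl0 (k : ℕ) : Bool := decide (k % 30 < 27) && decide (k % 3 = 0)

def g01 (k : ℕ) : ℕ := if sl01 k then 2 ^ 136 - 1 else 0
def g0 (k : ℕ) : ℕ := if sl0 k then 2 ^ 136 - 1 else 0
def gC (k : ℕ) : ℕ := if sl01 k then (if k % 3 = 0 then 2 ^ 136 + 2 ^ 52 else 2 ^ 136 + 2 ^ 52 - 2 ^ 135)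
  else 0
def gH (k : ℕ) : ℕ := if sl01 k then 2 ^ 192 - 2 ^ 53 else 0
def gP (k : ℕ) : ℕ := if sl01 k then 2 ^ 136 else 0

theorem OFF9_eq : OFF9 = pk (2 ^ 192) 270 (fun _ => 2 ^ 191) := by decide +kernel
theorem ONES_eq : ONES = pk (2 ^ 192) 270 (fun _ => 1) := by decide +kernel
theorem MV01_eq : MV01 = pk (2 ^ 192) 270 g01 := by decide +kernel
theorem MV0_eq : MV0 = pk (2 ^ 192) 270 g0 := by decide +kernel
theorem CC9_eq : CC9 = pk (2 ^ 192) 270 gC := by decide +kernel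
theorem HI9_eq : HI9 = pk (2 ^ 192) 270 gH := by decide +kernel
theorem PT9_eq : PT9 = pk (2 ^ 192) 270 gP := by decide +kernel

/-! ### sums -/

theorem pz_sum (b : ℤ) : ∀ (n : ℕ) (f : ℕ → ℤ), pz b n f = ∑ i ∈ range n, f i * b ^ i
  | 0, f => rfl
  | n + 1, f => by
    rw [pz_last, pz_sum b n f, sum_range_succ]
    ring

theorem sum_nest (m : ℕ) (f : ℕ → ℤ) : ∀ n : ℕ,
    ∑ i ∈ range (m * n), f i = ∑ a ∈ range n, ∑ b ∈ range m, f (m * a + b)
  | 0 => by simp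
  | n + 1 => by
    rw [Nat.mul_succ, sum_range_add, sum_nest m f n, sum_range_succ]

/-- the digit number `k` -/
def dg (N : VC) (k : ℕ) : ℤ :=
  if k % 30 < 27 then N (k / 30) (k % 30 / 3) (if k % 3 = 0 then 0 else if k % 3 = 1 then 1 else 2)
  else 0

theorem dg_at (N : VC) {K L : ℕ} (hL : L < 9) (e : Fin 3) :
    dg N (30 * K + (3 * L + e)) = N K L e := by
  have he := e.2
  have h1 : (30 * K + (3 * L + (e : ℕ))) % 30 = 3 * L + e := by omega
  have h2 : (30 * K + (3 * L + (e : ℕ))) / 30 = K := by omega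
  have h3 : (30 * K + (3 * L + (e : ℕ))) % 3 = e := by omega
  have h4 : (3 * L + (e : ℕ)) / 3 = L := by omega
  unfold dg
  rw [h1, h2, h3, h4, if_pos (by omega)]
  congr 1
  fin_cases e <;> rfl

theorem dg_pad (N : VC) {K s : ℕ} (h : 27 ≤ s) (h' : s < 30) : dg N (30 * K + s) = 0 := by
  unfold dg
  rw [if_neg (by omega)]

theorem sum30 (f : ℕ → ℤ) (h : ∀ s, 27 ≤ s → s < 30 → f s = 0) :
    ∑ s ∈ range 30, f s = ∑ L ∈ range 9, (f (3 * L) + f (3 * L + 1) + f (3 * L + 2)) := by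
  have e : (30 : ℕ) = 27 + 3 := rfl
  have e3 : ∑ s ∈ range 3, f (27 + s) = 0 := sum_eq_zero fun s hs => by
    have h1 := mem_range.1 hs
    exact h _ (by omega) (by omega)
  rw [e, sum_range_add, e3, add_zero]
  rw [show (27 : ℕ) = 3 * 9 from rfl, sum_nest]
  refine sum_congr rfl fun L _ => ?_
  rw [sum_range_succ, sum_range_succ, sum_range_succ, sum_range_zero, zero_add, Nat.add_zero]

theorem PC_pz (N : VC) : PC N = pz BB 270 (dg N) := by
  rw [pz_sum, show (270 : ℕ) = 30 * 9 from rfl, sum_nest]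
  unfold PC
  refine sum_congr rfl fun K _ => ?_
  rw [sum30 _ (fun s h h' => by rw [dg_pad N h h', zero_mul])]
  refine sum_congr rfl fun L hL => ?_
  have hL' := mem_range.1 hL
  have e0 := dg_at N (K := K) hL' 0
  have e1 := dg_at N (K := K) hL' 1
  have e2 := dg_at N (K := K) hL' 2
  rw [show ((0 : Fin 3) : ℕ) = 0 from rfl, Nat.add_zero] at e0
  rw [show ((1 : Fin 3) : ℕ) = 1 from rfl] at e1
  rw [show ((2 : Fin 3) : ℕ) = 2 from rfl] at e2
  rw [e0, e1, e2, pow_add, pow_add BB (30 * K) (3 * L + 1), pow_add BB (30 * K) (3 * L + 2),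
    pow_add BB (3 * L) 1, pow_add BB (3 * L) 2, pow_mul, pow_mul, pow_one]
  ring

/-! ### the number with offset -/

/-- all digits of the entries are less than `b` -/
def Bc (b : ℤ) (N : VC) : Prop := ∀ K L, K < 9 → L < 9 → ∀ e, |N K L e| ≤ b

theorem dg_bd {b : ℤ} {N : VC} (hb : 0 ≤ b) (h : Bc b N) {k : ℕ} (hk : k < 270) : |dg N k| ≤ b := by
  unfold dg
  by_cases h1 : k % 30 < 27
  · rw [if_pos h1]
    exact h _ _ (by omega) (by omega) _
  · rw [if_neg h1, abs_zero]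
    exact hb

/-- digits with offset -/
def od (N : VC) (k : ℕ) : ℕ := (2 ^ 191 + dg N k).toNat

theorem od_cast {N : VC} (h : Bc (2 ^ 190) N) {k : ℕ} (hk : k < 270) :
    ((od N k : ℕ) : ℤ) = 2 ^ 191 + dg N k := by
  have h1 := abs_le.1 (dg_bd (by positivity) h hk)
  have h2 : (2 : ℤ) ^ 190 ≤ 2 ^ 191 := by norm_num
  exact Int.toNat_of_nonneg (by linarith [h1.1])

theorem od_lt {N : VC} (h : Bc (2 ^ 190) N) {k : ℕ} (hk : k < 270) : od N k < 2 ^ 192 := by
  have h1 := abs_le.1 (dg_bd (by positivity) h hk)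
  have h3 := od_cast h hk
  have h2 : (2 : ℤ) ^ 190 + 2 ^ 191 < 2 ^ 192 := by norm_num
  have h4 : ((od N k : ℕ) : ℤ) < ((2 ^ 192 : ℕ) : ℤ) := by
    rw [h3]
    push_cast
    linarith [h1.2]
  exact_mod_cast h4

theorem off_pk {N : VC} (h : Bc (2 ^ 190) N) :
    ((OFF9 : ℕ) : ℤ) + PC N = ((pk (2 ^ 192) 270 (od N) : ℕ) : ℤ) := by
  have e1 : ((OFF9 : ℕ) : ℤ) = pz BB 270 (fun _ => 2 ^ 191) := by
    rw [OFF9_eq, pk_cast]
    push_cast
    rfl
  have e2 : ((pk (2 ^ 192) 270 (od N) : ℕ) : ℤ) = pz BB 270 (fun k => (od N k : ℤ)) := by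
    rw [pk_cast]
    push_cast
    rfl
  rw [e1, e2, PC_pz, pz_add]
  exact pz_congr _ _ _ _ fun k hk => (od_cast h hk).symm

theorem zoff_cast {x : Z} (h : 0 ≤ ((OFF9 : ℕ) : ℤ) + zv x) :
    ((zoff x : ℕ) : ℤ) = ((OFF9 : ℕ) : ℤ) + zv x := by
  cases x with
  | p n =>
    show ((OFF9 + n : ℕ) : ℤ) = _
    rw [Nat.cast_add]
    rfl
  | m n =>
    have h1 : n ≤ OFF9 := by
      have h2 : (0 : ℤ) ≤ ((OFF9 : ℕ) : ℤ) + -(n : ℤ) := h
      have h3 : (n : ℤ) ≤ ((OFF9 : ℕ) : ℤ) := by linarith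
      exact_mod_cast h3
    show ((OFF9 - n : ℕ) : ℤ) = _
    rw [Nat.cast_sub h1]
    rfl

theorem zoff_eq {x : Z} {N : VC} (hx : RC x N) (h : Bc (2 ^ 190) N) :
    zoff x = pk (2 ^ 192) 270 (od N) := by
  have h1 := off_pk h
  rw [← hx] at h1
  have h2 : ((zoff x : ℕ) : ℤ) = ((pk (2 ^ 192) 270 (od N) : ℕ) : ℤ) := by
    rw [zoff_cast (by rw [h1]; exact Int.natCast_nonneg _), h1]
  exact_mod_cast h2

end Pool.Agent.Helper17.K9
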